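import Pool.Agent.Helper55.FU.TA

/-!
Fused machine (MP_c75db0, star frame), row T: from the Taylor machine.
-/

set_option autoImplicit false
set_option exponentiation.threshold 100000
noncomputable section
namespace Pool.Agent.Helper55.FU

open Finset
open Pool.Agent.Helper91
open Pool.Agent.Helper91.FU
open Pool.Agent.Helper90.KMT (PT)
open Pool.Agent.Helper90.KMO (UU UU_pos andB_t)
open Pool.Agent.Helper86.CX (andB)
open Pool.Agent.Helper86.CT (Mo)
open Pool.Agent.Helper91.TM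
open Pool.Agent.Helper91.TMK (TOK)

/-! ### the majorant -/

/-- the number of the monomials -/
def nm (d : ℕ) : ℕ := (d + 1) * (d + 2) / 2
/-- the constants of the majorant -/
def dc (k : ℕ) : ℕ := if k = 7 then 232705 else 1 + 98304 / 4 ^ k * nm k

theorem dK_eq : dK = Sm 8 dc := by decide +kernel
theorem nm_eq : ∀ d < 7, ((range 43).filter (fun r => vb (43 * d + r) = true)).card = nm d := by
  decide +kernel
theorem nm_all : ∑ i ∈ range 301, (if vb i = true then 4 ^ (6 - xd i) else 0) = 9696 := by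
  decide +kernel

/-- the fields of the majorant -/
def fn (D : ℕ → ℕ) (r k : ℕ) : ℕ := (if k = 7 then r else bs D k / 2 ^ 8) + dc k

theorem bkS_eq {D : ℕ → ℕ} {k j : ℕ} (hk : k < 7) (hj : j = 160 * (43 * k))
    (h : ∀ i, D i ≤ 2 ^ 78) : bkS (Sm 301 D) j = bs D k / 2 ^ 8 := by
  have e1 : bkS (Sm 301 D) j = ds (Nat.land (Nat.shiftRight (Sm 301 D) j) cBK) / 2 ^ 8 :=
    Nat.shiftRight_eq_div_pow _ _
  have e2 : Nat.shiftRight (Sm 301 D) j = Sm 301 D / 2 ^ j := Nat.shiftRight_eq_div_pow _ _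
  rw [e1, e2, hj, blk hk h]
  rfl

theorem dgT_eq {D : ℕ → ℕ} (h : ∀ i, D i ≤ 2 ^ 78) (r : ℕ) : dgT (Sm 301 D) r = Sm 8 (fn D r) := by
  have b0 := bkS_eq (k := 0) (j := 0) (by norm_num) (by norm_num) h
  have b1 := bkS_eq (k := 1) (j := 6880) (by norm_num) (by norm_num) h
  have b2 := bkS_eq (k := 2) (j := 13760) (by norm_num) (by norm_num) h
  have b3 := bkS_eq (k := 3) (j := 20640) (by norm_num) (by norm_num) h
  have b4 := bkS_eq (k := 4) (j := 27520) (by norm_num) (by norm_num) h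
  have b5 := bkS_eq (k := 5) (j := 34400) (by norm_num) (by norm_num) h
  have b6 := bkS_eq (k := 6) (j := 41280) (by norm_num) (by norm_num) h
  have hl : ∀ x s : ℕ, Nat.shiftLeft x s = x * 2 ^ s := fun x s => Nat.shiftLeft_eq x s
  have e1 : dgT (Sm 301 D) r = (bs D 0 / 2 ^ 8 + (Nat.shiftLeft (bs D 1 / 2 ^ 8) 160 +
      (Nat.shiftLeft (bs D 2 / 2 ^ 8) 320 + (Nat.shiftLeft (bs D 3 / 2 ^ 8) 480 +
      (Nat.shiftLeft (bs D 4 / 2 ^ 8) 640 + (Nat.shiftLeft (bs D 5 / 2 ^ 8) 800 +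
      Nat.shiftLeft (bs D 6 / 2 ^ 8) 960)))))) + (dK + Nat.shiftLeft r 1120) := by
    rw [← b0, ← b1, ← b2, ← b3, ← b4, ← b5, ← b6]
    rfl
  have e2 : Sm 8 (fn D r) = Sm 8 (fun k => if k = 7 then r else bs D k / 2 ^ 8) + Sm 8 dc :=
    Sm_add 8 _ _
  rw [e1, e2, ← dK_eq, hl, hl, hl, hl, hl, hl, hl]
  simp only [Sm]
  norm_num
  ring

theorem dw_ok {m : ℕ} {n : ℕ → ℕ} (h : Wt m n < 2 ^ 160 - 4) : dw (Sm m n) = Wt m n := by
  have h1 : ∀ k : ℕ, 2 ^ (160 * k) ≡ 4 ^ k [MOD 2 ^ 160 - 4] := by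
    intro k
    rw [pow_mul]
    have h2 : 2 ^ 160 ≡ 4 [MOD 2 ^ 160 - 4] :=
      ((Nat.modEq_iff_dvd' (by norm_num)).2 (dvd_refl _)).symm
    exact h2.pow k
  have h3 : Sm m n ≡ Wt m n [MOD 2 ^ 160 - 4] := by
    rw [Sm_eq]
    unfold Wt
    refine Nat.ModEq.sum fun i _ => ?_
    rw [mul_comm (n i)]
    exact (h1 i).mul_right _
  have e : dw (Sm m n) = Sm m n % (2 ^ 160 - 4) := by
    have e1 : (2 ^ 160 - 4 : ℕ) = 1461501637330902918203684832716283019655932542972 := by norm_num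
    rw [e1]
    rfl
  rw [e, h3, Nat.mod_eq_of_lt h]

theorem dc_le {k : ℕ} (hk : k < 8) : 1 ≤ dc k ∧ dc k ≤ 232705 := by
  unfold dc nm
  interval_cases k <;> norm_num

/-- the bounds from the flag -/
theorem fn_bd {D : ℕ → ℕ} (h : ∀ i, D i ≤ 2 ^ 78) {r : ℕ} (hr : r ≤ 2 ^ 62)
    (hw : dw (Sm 8 (fn D r)) ≤ 2 ^ 62) : Wt 8 (fn D r) ≤ 2 ^ 62 ∧
      ∀ i, vb i = true → D i ≤ 2 ^ (70 - 2 * xd i) := by
  have hbs : ∀ k, bs D k ≤ 43 * 2 ^ 78 := by
    intro k
    unfold bs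
    have := Finset.sum_le_sum (f := fun r => D (43 * k + r)) (g := fun _ => 2 ^ 78) (s := range 43)
      fun i _ => h _
    rwa [Finset.sum_const, card_range, smul_eq_mul] at this
  have hf : ∀ k < 8, fn D r k ≤ 2 ^ 80 := by
    intro k hk
    have h1 := (dc_le hk).2
    have h2 := hbs k
    unfold fn
    split_ifs
    · have : (2 : ℕ) ^ 62 + 232705 ≤ 2 ^ 80 := by norm_num
      omega
    · omega
  have hW : Wt 8 (fn D r) ≤ 2 ^ 97 := by
    unfold Wt
    have := Finset.sum_le_sum (f := fun k => 4 ^ k * fn D r k) (g := fun _ => 4 ^ 7 * 2 ^ 80)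
      (s := range 8) fun k hk => Nat.mul_le_mul (Nat.pow_le_pow_right (by norm_num)
        (by have := mem_range.1 hk; omega)) (hf k (mem_range.1 hk))
    rw [Finset.sum_const, card_range, smul_eq_mul] at this
    refine this.trans ?_
    norm_num
  have e := dw_ok (m := 8) (n := fn D r) (by
    have : (2 : ℕ) ^ 97 < 2 ^ 160 - 4 := by norm_num
    omega)
  rw [e] at hw
  refine ⟨hw, fun i hv => ?_⟩
  have h6 := xd_le hv
  have h1 : 4 ^ xd i * fn D r (xd i) ≤ Wt 8 (fn D r) := by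
    unfold Wt
    exact Finset.single_le_sum (f := fun k => 4 ^ k * fn D r k) (fun _ _ => Nat.zero_le _)
      (mem_range.2 (by omega))
  have h2 : bs D (xd i) ≤ 256 * fn D r (xd i) := by
    have h3 := (dc_le (k := xd i) (by omega)).1
    unfold fn
    rw [if_neg (by omega)]
    omega
  have h3 : D i ≤ bs D (xd i) := by
    have e1 : i = 43 * xd i + i % 43 := by
      unfold xd
      omega
    unfold bs
    have := Finset.single_le_sum (f := fun r => D (43 * xd i + r)) (s := range 43)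
      (fun _ _ => Nat.zero_le _) (mem_range.2 (Nat.mod_lt i (by norm_num : 0 < 43)))
    simp only [← e1] at this
    exact this
  have h4 : 4 ^ xd i * D i ≤ 2 ^ 70 := by
    have h5 : 4 ^ xd i * D i ≤ 4 ^ xd i * (256 * fn D r (xd i)) :=
      Nat.mul_le_mul_left _ (h3.trans h2)
    have h7 : 4 ^ xd i * (256 * fn D r (xd i)) = 256 * (4 ^ xd i * fn D r (xd i)) := by ring
    have h8 : (256 : ℕ) * 2 ^ 62 = 2 ^ 70 := by norm_num
    omega
  have e4 : (2 : ℕ) ^ 70 = 4 ^ xd i * 2 ^ (70 - 2 * xd i) := by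
    have : (4 : ℕ) ^ xd i = 2 ^ (2 * xd i) := by
      rw [pow_mul]
      norm_num
    rw [this, ← pow_add, show 2 * xd i + (70 - 2 * xd i) = 70 by omega]
  rw [e4] at h4
  exact Nat.le_of_mul_le_mul_left h4 (by positivity)

/-! ### the errors -/

theorem zc_err {a b : ℕ → ℤ} {i : ℕ} (h : vb i = true) :
    ‖zc (rp a) (rp b) i - zc a b i / 2 ^ (25 - 2 * xd i)‖ ≤ 3 / 4 := by
  have h3 := cx_err (rq_err (a i) (xd_le h)) (rq_err (b i) (xd_le h))
  have e : zc (rp a) (rp b) i - zc a b i / 2 ^ (25 - 2 * xd i) =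
      ((((rq (a i) (xd i) : ℤ) : ℝ) - (a i : ℝ) / 2 ^ (25 - 2 * xd i) : ℝ) : ℂ) +
      ((((rq (b i) (xd i) : ℤ) : ℝ) - (b i : ℝ) / 2 ^ (25 - 2 * xd i) : ℝ) : ℂ) * Complex.I := by
    unfold zc
    rw [rp_t h, rp_t h]
    push_cast
    ring
  rw [e]
  exact h3

theorem Nh_rp (a b : ℕ → ℤ) {d : ℕ} (hd : d < 7) :
    Nh (zc (rp a) (rp b)) d ≤ Nh (zc a b) d / 2 ^ (25 - 2 * d) + 3 / 4 * nm d := by
  have h1 : ∀ r ∈ range 43, ‖zc (rp a) (rp b) (43 * d + r)‖ ≤
      ‖zc a b (43 * d + r)‖ / 2 ^ (25 - 2 * d) +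
        3 / 4 * (if vb (43 * d + r) = true then 1 else 0) := by
    intro r hr
    have hx : xd (43 * d + r) = d := by
      have := mem_range.1 hr
      unfold xd
      omega
    cases hv : vb (43 * d + r) with
    | false =>
      have e : zc (rp a) (rp b) (43 * d + r) = 0 := by
        unfold zc
        rw [rp_sp a _ hv, rp_sp b _ hv]
        simp
      rw [e, norm_zero]
      positivity
    | true =>
      have h2 := zc_err (a := a) (b := b) hv
      rw [hx] at h2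
      have h3 := norm_add_le (zc (rp a) (rp b) (43 * d + r) - zc a b (43 * d + r) / 2 ^ (25 - 2 * d))
        (zc a b (43 * d + r) / 2 ^ (25 - 2 * d))
      rw [sub_add_cancel, norm_div, norm_pow, Complex.norm_ofNat] at h3
      rw [if_pos rfl]
      linarith
  unfold Nh
  refine (Finset.sum_le_sum h1).trans (le_of_eq ?_)
  rw [Finset.sum_add_distrib, Finset.sum_div, ← Finset.mul_sum, Finset.sum_boole, nm_eq d hd]

theorem mu_sS {t : ℕ → ℝ} {i : ℕ} (h : vb i = true) : mu (sS t) i = mu (tS t) i / 4 ^ xd i := by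
  have e : ∀ j, sS t j = tS t j / 4 := fun j => rfl
  have hx : xd i = x0 i + x1 i + x2 i := by
    have := (vb_iff i).1 h
    unfold x0 x1 x2 xd
    omega
  unfold mu
  rw [e, e, e, hx, pow_add, pow_add, div_pow, div_pow, div_pow]
  field_simp

theorem Ev_err {a b : ℕ → ℤ} (ha : Sp a) (hb : Sp b) {t : ℕ → ℝ} (hs : SB (tS t)) :
    ‖Ev (tS t) (zc a b) / 2 ^ 25 - Ev (sS t) (zc (rp a) (rp b))‖ ≤ 232704 / 2 ^ 17 := by
  have h1 : ∀ i ∈ range 301, ‖zc a b i * (mu (tS t) i : ℂ) / 2 ^ 25 -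
      zc (rp a) (rp b) i * (mu (sS t) i : ℂ)‖ ≤
        3 / 4 / 4 ^ 6 * ((if vb i = true then 4 ^ (6 - xd i) else 0 : ℕ) : ℝ) := by
    intro i _
    cases hv : vb i with
    | false =>
      have e1 : zc a b i = 0 := by
        unfold zc
        rw [ha _ hv, hb _ hv]
        simp
      have e2 : zc (rp a) (rp b) i = 0 := by
        unfold zc
        rw [rp_sp a _ hv, rp_sp b _ hv]
        simp
      rw [e1, e2]
      simp
    | true =>
      have h6 := xd_le hv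
      rw [mu_sS hv, if_pos rfl]
      have e25 : (2 : ℂ) ^ 25 = 2 ^ (25 - 2 * xd i) * 4 ^ xd i := by
        have : (4 : ℂ) ^ xd i = 2 ^ (2 * xd i) := by
          rw [pow_mul]
          norm_num
        rw [this, ← pow_add]
        congr 1
        omega
      have e3 : zc a b i * (mu (tS t) i : ℂ) / 2 ^ 25 -
          zc (rp a) (rp b) i * ((mu (tS t) i / 4 ^ xd i : ℝ) : ℂ) =
          -((zc (rp a) (rp b) i - zc a b i / 2 ^ (25 - 2 * xd i)) * (mu (tS t) i : ℂ)) / 4 ^ xd i := by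
        rw [e25]
        push_cast
        have p1 : (2 : ℂ) ^ (25 - 2 * xd i) ≠ 0 := pow_ne_zero _ (by norm_num)
        have p2 : (4 : ℂ) ^ xd i ≠ 0 := pow_ne_zero _ (by norm_num)
        field_simp
        ring
      rw [e3, norm_div, norm_neg, norm_mul, norm_pow, Complex.norm_ofNat, Complex.norm_real,
        Real.norm_eq_abs]
      have h2 := zc_err (a := a) (b := b) hv
      have h3 := mu_le hs i
      have h4 : ‖zc (rp a) (rp b) i - zc a b i / 2 ^ (25 - 2 * xd i)‖ * |mu (tS t) i| ≤ 3 / 4 := by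
        have := mul_le_mul h2 h3 (abs_nonneg _) (by norm_num)
        linarith
      have e4 : (3 : ℝ) / 4 / 4 ^ 6 * ((4 ^ (6 - xd i) : ℕ) : ℝ) = 3 / 4 / 4 ^ xd i := by
        have e5 : (4 : ℝ) ^ 6 = 4 ^ (6 - xd i) * 4 ^ xd i := by
          rw [← pow_add]
          congr 1
          omega
        rw [e5]
        push_cast
        have p1 : (4 : ℝ) ^ (6 - xd i) ≠ 0 := by positivity
        have p2 : (4 : ℝ) ^ xd i ≠ 0 := by positivity
        field_simp
      rw [e4]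
      exact div_le_div_of_nonneg_right h4 (by positivity)
  have e0 : Ev (tS t) (zc a b) / 2 ^ 25 - Ev (sS t) (zc (rp a) (rp b)) =
      ∑ i ∈ range 301, (zc a b i * (mu (tS t) i : ℂ) / 2 ^ 25 -
        zc (rp a) (rp b) i * (mu (sS t) i : ℂ)) := by
    unfold Ev
    rw [Finset.sum_div, ← Finset.sum_sub_distrib]
  rw [e0]
  refine (norm_sum_le _ _).trans ((Finset.sum_le_sum h1).trans (le_of_eq ?_))
  rw [← Finset.mul_sum, ← Nat.cast_sum, nm_all]
  norm_num

end Pool.Agent.Helper55.FU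

namespace Pool.Agent.Helper91.FU

open Finset
open Pool.Agent.Helper91
open Pool.Agent.Helper90.KMT (PT)
open Pool.Agent.Helper90.KMO (UU UU_pos andB_t)
open Pool.Agent.Helper86.CX (andB)
open Pool.Agent.Helper86.CT (Mo)
open Pool.Agent.Helper91.TM (TP Sm Sz Sp Ev Nh zc tS vb xd ds SB)
open Pool.Agent.Helper91.TMK (TOK)
open Pool.Agent.Helper55.FU

/-! ROW T: from the Taylor machine -/

variable {t : ℕ → ℝ} {f : ℂ}

theorem toF1_k (x : TP) (r d : Nat) (h : (toF1 x r d).k = true) :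
    andB x.g (andB (Nat.ble r (nat_lit 4611686018427387904))
      (Nat.ble (dw d) (nat_lit 4611686018427387904))) = true := h

theorem toF_core {x : TP} {r d : ℕ} {a b : ℕ → ℤ} (ha : TM.Rp x.re a) (hb : TM.Rp x.im b)
    (hl : ∀ i, |a i| < 2 ^ 76 ∧ |b i| < 2 ^ 76)
    (hd : d = dgT (Nat.add (TM.absT x.re) (TM.absT x.im)) r)
    (hk : (toF1 x r d).k = true) (hs : SB (tS t))
    (hm : ‖(UU : ℂ) * f - Ev (tS t) (zc a b) / 256‖ ≤ r) :
    ∃ p q n, FR 1 (toF1 x r d) p q n ∧ ‖2 ^ 31 * f - Ev (sS t) (zc p q)‖ ≤ (n 7 : ℝ) / 2 ^ 17 := by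
  obtain ⟨hg, hk2⟩ := andB_t (toF1_k _ _ _ hk)
  obtain ⟨hr, hw⟩ := andB_t hk2
  have e62 : (2 : ℕ) ^ 62 = 4611686018427387904 := by norm_num
  have hr' : r ≤ 2 ^ 62 := by
    rw [e62]
    exact Nat.le_of_ble_eq_true hr
  have hDle : ∀ i, (fun i => (a i).natAbs + (b i).natAbs) i ≤ 2 ^ 78 := by
    intro i
    have h2 := (hl i).1
    have h3 := (hl i).2
    have h4 : ((a i).natAbs : ℤ) = |a i| := Int.natCast_natAbs _
    have h5 : ((b i).natAbs : ℤ) = |b i| := Int.natCast_natAbs _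
    show (a i).natAbs + (b i).natAbs ≤ 2 ^ 78
    omega
  have eD : Nat.add (TM.absT x.re) (TM.absT x.im) =
      Sm 301 (fun i => (a i).natAbs + (b i).natAbs) := by
    rw [TM.Sm_add, ← TM.absT_eq ha.md ha.sp fun i => (hl i).1,
      ← TM.absT_eq hb.md hb.sp fun i => (hl i).2]
    rfl
  rw [eD, dgT_eq hDle] at hd
  generalize hD : (fun i => (a i).natAbs + (b i).natAbs) = D at hDle hd
  have hDv : ∀ i, D i = (a i).natAbs + (b i).natAbs := fun i => by rw [← hD]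
  have hw' : dw (Sm 8 (fn D r)) ≤ 2 ^ 62 := by
    rw [e62, ← hd]
    exact Nat.le_of_ble_eq_true hw
  obtain ⟨hW, hDi⟩ := fn_bd hDle hr' hw'
  have ba : ∀ i, vb i = true → |a i| ≤ 2 ^ (70 - 2 * xd i) := by
    intro i hv
    have h1 := hDi i hv
    rw [hDv] at h1
    have h5 : (a i).natAbs ≤ 2 ^ (70 - 2 * xd i) := le_trans (Nat.le_add_right _ _) h1
    rw [← Int.natCast_natAbs]
    exact_mod_cast h5
  have bb : ∀ i, vb i = true → |b i| ≤ 2 ^ (70 - 2 * xd i) := by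
    intro i hv
    have h1 := hDi i hv
    rw [hDv] at h1
    have h5 : (b i).natAbs ≤ 2 ^ (70 - 2 * xd i) := le_trans (Nat.le_add_left _ _) h1
    rw [← Int.natCast_natAbs]
    exact_mod_cast h5
  have nD : ∀ e, Nh (zc a b) e ≤ (TM.bs D e : ℕ) := by
    intro e
    rw [← hD]
    exact TM.Nh_le a b e
  refine ⟨rp a, rp b, fn D r, ⟨loT_ok ha ba, loT_ok hb bb, hd, rp_sp a, rp_sp b,
    fun i => ?_, fun i => ?_, fun e he => ?_, ?_⟩, ?_⟩
  · have := rp_bd ba i
    push_cast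
    linarith
  · have := rp_bd bb i
    push_cast
    linarith
  · have h1 := Nh_rp a b he
    have h2 := nD e
    have h3 : TM.bs D e + 1 ≤ 256 * (TM.bs D e / 2 ^ 8 + 1) := by omega
    have h3' : ((TM.bs D e : ℕ) : ℝ) ≤ 256 * (((TM.bs D e / 2 ^ 8 : ℕ) : ℝ) + 1) := by
      have : TM.bs D e ≤ 256 * (TM.bs D e / 2 ^ 8 + 1) := by omega
      exact_mod_cast this
    have h4 : ((fn D r e : ℕ) : ℝ) = ((TM.bs D e / 2 ^ 8 : ℕ) : ℝ) + 1 +
        ((98304 / 4 ^ e * nm e : ℕ) : ℝ) := by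
      unfold fn dc
      rw [if_neg (by omega), if_neg (by omega)]
      push_cast
      ring
    have h5 : ((98304 / 4 ^ e * nm e : ℕ) : ℝ) = 98304 / 4 ^ e * nm e := by
      unfold nm
      interval_cases e <;> norm_num
    rw [h4, h5]
    have h6 : (2 : ℝ) ^ 17 * (Nh (zc a b) e / 2 ^ (25 - 2 * e) + 3 / 4 * nm e) =
        4 ^ e * (Nh (zc a b) e / 256) + 98304 * nm e := by
      have e8 : (2 : ℝ) ^ (25 - 2 * e) = 2 ^ 25 / 4 ^ e := by
        have e9 : (4 : ℝ) ^ e = 2 ^ (2 * e) := by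
          rw [pow_mul]
          norm_num
        rw [e9, eq_div_iff (by positivity), ← pow_add, show 25 - 2 * e + 2 * e = 25 by omega]
      rw [e8]
      field_simp
      ring
    have h7 : (4 : ℝ) ^ e * (((TM.bs D e / 2 ^ 8 : ℕ) : ℝ) + 1 + 98304 / 4 ^ e * nm e) =
        4 ^ e * (((TM.bs D e / 2 ^ 8 : ℕ) : ℝ) + 1) + 98304 * nm e := by
      field_simp
    rw [h7]
    have h8 : (4 : ℝ) ^ e * (Nh (zc a b) e / 256) ≤
        4 ^ e * (((TM.bs D e / 2 ^ 8 : ℕ) : ℝ) + 1) := by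
      refine mul_le_mul_of_nonneg_left ?_ (by positivity)
      linarith
    linarith
  · refine hW.trans ?_
    norm_num
  · have h1 := Ev_err ha.sp hb.sp hs
    have e1 : (2 : ℂ) ^ 31 * f - Ev (sS t) (zc (rp a) (rp b)) =
        ((UU : ℂ) * f - Ev (tS t) (zc a b) / 256) / 2 ^ 17 +
          (Ev (tS t) (zc a b) / 2 ^ 25 - Ev (sS t) (zc (rp a) (rp b))) := by
      have e2 : (UU : ℂ) = 2 ^ 48 := by
        unfold UU
        norm_num
      rw [e2]
      ring
    have h7 : ((fn D r 7 : ℕ) : ℝ) = r + 232705 := by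
      unfold fn dc
      rw [if_pos rfl, if_pos rfl]
      push_cast
      ring
    rw [e1, h7]
    refine (norm_add_le _ _).trans ?_
    rw [norm_div, norm_pow, Complex.norm_ofNat]
    have h2 : ‖(UU : ℂ) * f - Ev (tS t) (zc a b) / 256‖ / 2 ^ 17 ≤ (r : ℝ) / 2 ^ 17 :=
      div_le_div_of_nonneg_right hm (by positivity)
    have h3 : ((r : ℝ) + 232705) / 2 ^ 17 = r / 2 ^ 17 + 232705 / 2 ^ 17 := by ring
    have h4 : (232704 : ℝ) / 2 ^ 17 ≤ 232705 / 2 ^ 17 := by norm_num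
    rw [h3]
    linarith

/-- CONVERSION -/
theorem FV_to (hP : PT 3 t) {M : Mo TP} (h : TOK 3 TM.lfT t f M) : FV 1 t f (toF M) := by
  have e1 : toF M = toF1 M.v M.r (dgT (Nat.add (TM.absT M.v.re) (TM.absT M.v.im)) M.r) := rfl
  rw [e1]
  intro hk
  obtain ⟨hg, -⟩ := andB_t (toF1_k _ _ _ hk)
  have hG : TM.GT M.v := h.val.vl.ok hg
  exact toF_core hG.re hG.im (TM.abs_lt_of hG.re.sp hG.im.sp hG.sm hG.m) rfl hk (TM.SB_of hP)
    (h.mod hg)

/-! ### constants -/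

theorem fO_eq : (fO : ℤ) = Sz 301 ov := by
  have h : fO = Sm 301 (fun i => TM.fo (nat_lit 281474976710656) (vb i)) :=
    TM.cst_of (by decide +kernel)
  rw [h, TM.Sz_cast]
  refine TM.Sz_congr fun i _ => ?_
  unfold ov
  cases vb i
  · rfl
  · rw [TM.fo_t, if_pos rfl]
    norm_num

theorem kG_k (v n : Nat) (h : (kG v n).k = true) : n ≤ 2 ^ 62 := by
  have e62 : (2 : ℕ) ^ 62 = 4611686018427387904 := by norm_num
  rw [e62]
  exact Nat.le_of_ble_eq_true h

theorem FV_kG {x : ℝ} {v n : ℕ} (h1 : |2 ^ 31 * x - v| ≤ 1) (h2 : 2 ^ 17 * v ≤ n) :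
    FV 1 t (x : ℂ) (kG v n) := by
  intro hk
  have hn := kG_k v n hk
  have hz : ∀ i, zc (TM.dl (v : ℤ)) (fun _ => 0) i = if i = 0 then (v : ℂ) else 0 := by
    intro i
    unfold TM.dl
    show ((if i = 0 then (v : ℤ) else 0 : ℤ) : ℂ) + ((0 : ℤ) : ℂ) * Complex.I = _
    split_ifs <;> simp
  have hNh : ∀ d, Nh (zc (TM.dl (v : ℤ)) (fun _ => 0)) d = if d = 0 then (v : ℝ) else 0 := by
    intro d
    unfold Nh
    split_ifs with hd
    · subst hd
      rw [Finset.sum_eq_single 0]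
      · rw [hz, if_pos (by norm_num)]
        simp
      · intro r _ hr
        rw [hz, if_neg (by omega), norm_zero]
      · intro h
        exact absurd (mem_range.2 (by norm_num)) h
    · refine Finset.sum_eq_zero fun r _ => ?_
      rw [hz, if_neg (by omega), norm_zero]
  refine ⟨TM.dl (v : ℤ), fun _ => 0, fun k => if k = 0 then n else if k = 7 then 2 ^ 17 else 0,
    ⟨?_, ?_, ?_, TM.dl_sp _, fun _ _ => rfl, ?_, ?_, ?_, ?_⟩, ?_⟩
  · show ((Nat.add fO v : ℕ) : ℤ) = _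
    rw [TM.Sz_add, TM.Sz_dl, ← fO_eq]
    show ((fO + v : ℕ) : ℤ) = _
    push_cast
    ring
  · show ((fO : ℕ) : ℤ) = _
    rw [fO_eq]
    exact TM.Sz_congr fun i _ => (zero_add _).symm
  · show Nat.add n (Nat.shiftLeft (nat_lit 1) (nat_lit 1137)) = _
    have e : Nat.shiftLeft 1 1137 = 2 ^ 17 * 2 ^ 1120 := by
      have := Nat.shiftLeft_eq 1 1137
      rw [one_mul] at this
      rw [← pow_add]
      exact this
    show n + Nat.shiftLeft 1 1137 = _
    rw [e]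
    simp [Sm]
  · intro i
    unfold TM.dl
    split_ifs
    · rw [abs_of_nonneg (Int.natCast_nonneg _)]
      have : (v : ℤ) ≤ 2 ^ 46 := by
        have h3 : v ≤ 2 ^ 46 := by
          have e3 : (2 : ℕ) ^ 62 = 2 ^ 17 * 2 ^ 45 := by norm_num
          have e4 : 2 ^ 17 * v ≤ 2 ^ 17 * 2 ^ 45 := by omega
          have e5 := Nat.le_of_mul_le_mul_left e4 (by positivity)
          have e6 : (2 : ℕ) ^ 45 ≤ 2 ^ 46 := by norm_num
          omega
        exact_mod_cast h3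
      push_cast
      linarith
    · norm_num
  · intro i
    norm_num
  · intro d hd
    rw [hNh]
    show 2 ^ 17 * (if d = 0 then (v : ℝ) else 0) ≤
      4 ^ d * ((if d = 0 then n else if d = 7 then 2 ^ 17 else 0 : ℕ) : ℝ)
    have h3 : (2 : ℝ) ^ 17 * v ≤ n := by exact_mod_cast h2
    by_cases h0 : d = 0
    · rw [if_pos h0, if_pos h0, h0, pow_zero, one_mul]
      exact h3
    · rw [if_neg h0, if_neg h0, mul_zero]
      positivity
  · have e : Wt 8 (fun k => if k = 0 then n else if k = 7 then 2 ^ 17 else 0) =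
        n + 4 ^ 7 * 2 ^ 17 := by
      unfold Wt
      simp [Finset.sum_range_succ]
    rw [e]
    have e3 : (2 : ℕ) ^ 62 + 4 ^ 7 * 2 ^ 17 ≤ 1 * 2 ^ 64 := by norm_num
    omega
  · have e : Ev (sS t) (zc (TM.dl (v : ℤ)) (fun _ => 0)) = (v : ℂ) := by
      unfold Ev
      rw [Finset.sum_eq_single 0]
      · have h0 : TM.mu (sS t) 0 = 1 := by
          unfold TM.mu
          have : TM.x0 0 = 0 ∧ TM.x1 0 = 0 ∧ TM.x2 0 = 0 := by decide
          rw [this.1, this.2.1, this.2.2]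
          simp
        rw [h0, hz, if_pos rfl]
        simp
      · intro i _ hi
        rw [hz, if_neg hi, zero_mul]
      · intro h
        exact absurd (mem_range.2 (by norm_num)) h
    rw [e]
    have e2 : (2 : ℂ) ^ 31 * (x : ℂ) - (v : ℂ) = ((2 ^ 31 * x - v : ℝ) : ℂ) := by push_cast; ring
    rw [e2, Complex.norm_real, Real.norm_eq_abs]
    have e3 : (((2 : ℕ) ^ 17 : ℕ) : ℝ) / 2 ^ 17 = 1 := by norm_num
    show _ ≤ (((2 : ℕ) ^ 17 : ℕ) : ℝ) / 2 ^ 17
    rw [e3]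
    exact h1

theorem FV_kF (n : ℕ) : FV 1 t ((n / UU : ℝ) : ℂ) (kF n) := by
  have e : kF n = kG (n / 2 ^ 17) n := by
    have : Nat.shiftRight n 17 = n / 2 ^ 17 := Nat.shiftRight_eq_div_pow n 17
    rw [← this]
    rfl
  rw [e]
  refine FV_kG ?_ (Nat.mul_div_le _ _)
  have h1 : n / 2 ^ 17 * 2 ^ 17 ≤ n := Nat.div_mul_le_self _ _
  have h2 : n < (n / 2 ^ 17 + 1) * 2 ^ 17 := by omega
  have h1' : ((n / 2 ^ 17 : ℕ) : ℝ) * 2 ^ 17 ≤ n := by exact_mod_cast h1
  have h2' : (n : ℝ) < (((n / 2 ^ 17 : ℕ) : ℝ) + 1) * 2 ^ 17 := by exact_mod_cast h2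
  have e2 : (2 : ℝ) ^ 31 * (n / UU) = n / 2 ^ 17 := by
    unfold UU
    norm_num
    ring
  rw [e2, abs_le]
  constructor
  · have : ((n / 2 ^ 17 : ℕ) : ℝ) ≤ n / 2 ^ 17 := by
      rw [le_div_iff₀ (by positivity)]
      exact h1'
    linarith
  · have : (n : ℝ) / 2 ^ 17 ≤ ((n / 2 ^ 17 : ℕ) : ℝ) + 1 := by
      rw [div_le_iff₀ (by positivity)]
      exact h2'.le
    linarith

theorem FV_kH (n : ℕ) : FV 1 t ((n / UU / 2 : ℝ) : ℂ) (kH n) := by
  have e : kH n = kG (n / 2 ^ 18) n := by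
    have : Nat.shiftRight n 18 = n / 2 ^ 18 := Nat.shiftRight_eq_div_pow n 18
    rw [← this]
    rfl
  rw [e]
  refine FV_kG ?_ (by omega)
  have h1 : n / 2 ^ 18 * 2 ^ 18 ≤ n := Nat.div_mul_le_self _ _
  have h2 : n < (n / 2 ^ 18 + 1) * 2 ^ 18 := by omega
  have h1' : ((n / 2 ^ 18 : ℕ) : ℝ) * 2 ^ 18 ≤ n := by exact_mod_cast h1
  have h2' : (n : ℝ) < (((n / 2 ^ 18 : ℕ) : ℝ) + 1) * 2 ^ 18 := by exact_mod_cast h2
  have e2 : (2 : ℝ) ^ 31 * (n / UU / 2) = n / 2 ^ 18 := by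
    unfold UU
    norm_num
    ring
  rw [e2, abs_le]
  constructor
  · have : ((n / 2 ^ 18 : ℕ) : ℝ) ≤ n / 2 ^ 18 := by
      rw [le_div_iff₀ (by positivity)]
      exact h1'
    linarith
  · have : (n : ℝ) / 2 ^ 18 ≤ ((n / 2 ^ 18 : ℕ) : ℝ) + 1 := by
      rw [div_le_iff₀ (by positivity)]
      exact h2'.le
    linarith

theorem FV_rr : FV 1 t (((93824992236886 : ℕ) / UU : ℝ) : ℂ) rrF := FV_kF _

theorem FV_kR (n : ℕ) : FV 1 t (((93824992236886 : ℕ) / UU * (n / UU) : ℝ) : ℂ) (kR n) := by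
  have e : kR n = kG (93824992236886 * n / 2 ^ 65) n := by
    have : Nat.shiftRight (93824992236886 * n) 65 = 93824992236886 * n / 2 ^ 65 :=
      Nat.shiftRight_eq_div_pow _ 65
    rw [← this]
    rfl
  rw [e]
  refine FV_kG ?_ (by omega)
  have h1 : 93824992236886 * n / 2 ^ 65 * 2 ^ 65 ≤ 93824992236886 * n := Nat.div_mul_le_self _ _
  have h2 : 93824992236886 * n < (93824992236886 * n / 2 ^ 65 + 1) * 2 ^ 65 := by omega
  have h1' : ((93824992236886 * n / 2 ^ 65 : ℕ) : ℝ) * 2 ^ 65 ≤ 93824992236886 * n := by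
    exact_mod_cast h1
  have h2' : (93824992236886 : ℝ) * n < (((93824992236886 * n / 2 ^ 65 : ℕ) : ℝ) + 1) * 2 ^ 65 := by
    exact_mod_cast h2
  have e2 : (2 : ℝ) ^ 31 * ((93824992236886 : ℕ) / UU * (n / UU)) = 93824992236886 * n / 2 ^ 65 := by
    unfold UU
    push_cast
    norm_num
    ring
  rw [e2, abs_le]
  constructor
  · have : ((93824992236886 * n / 2 ^ 65 : ℕ) : ℝ) ≤ 93824992236886 * n / 2 ^ 65 := by
      rw [le_div_iff₀ (by positivity)]
      exact h1'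
    linarith
  · have : (93824992236886 : ℝ) * n / 2 ^ 65 ≤ ((93824992236886 * n / 2 ^ 65 : ℕ) : ℝ) + 1 := by
      rw [div_le_iff₀ (by positivity)]
      exact h2'.le
    linarith

end Pool.Agent.Helper91.FU
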