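import Pool.Agent.Helper91.FU.S
import Pool.Agent.Helper91.TM.R

/-!
Fused machine (MP_c75db0, star frame), row T: the digits and the majorant of a converted model.
-/

set_option autoImplicit false
set_option exponentiation.threshold 100000
noncomputable section
namespace Pool.Agent.Helper55.FU

open Finset
open Pool.Agent.Helper91
open Pool.Agent.Helper91.FU
open Pool.Agent.Helper90.KMT (PT)
open Pool.Agent.Helper90.KMO (UU UU_pos andB_t)
open Pool.Agent.Helper86.CX (andB)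
open Pool.Agent.Helper86.CT (Mo)
open Pool.Agent.Helper91.TM

/-! ### constants -/

/-- a sum of digits for the kernel, with the degree -/
def SmD (f : Nat → Bool → Nat) (n : Nat) : Nat :=
  Nat.rec (motive := fun _ => Nat) (nat_lit 0)
    (fun i s => Nat.add s (Nat.shiftLeft (f (Nat.div i (nat_lit 43))
      (and (Nat.blt i (nat_lit 301)) (Nat.ble
        (Nat.add (Nat.mod (Nat.mod i (nat_lit 43)) (nat_lit 7))
          (Nat.div (Nat.mod i (nat_lit 43)) (nat_lit 7)))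
        (Nat.div i (nat_lit 43))))) (Nat.mul (nat_lit 160) i))) n

theorem SmD_eq (f : Nat → Bool → Nat) (n : Nat) : SmD f n = Sm n (fun i => f (xd i) (vb i)) := by
  induction n with
  | zero => rfl
  | succ n ih =>
    have e : SmD f (n + 1) = SmD f n + Nat.shiftLeft (f (xd n) (vb n)) (160 * n) := rfl
    rw [e, ih, Sm]
    congr 1
    exact Nat.shiftLeft_eq _ _

/-- a digit at the monomials of degree `d` -/
def fd (k d e : Nat) (b : Bool) : Nat :=
  Bool.rec (motive := fun _ => Nat) (nat_lit 0)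
    (Bool.rec (motive := fun _ => Nat) (nat_lit 0) k (Nat.beq e d)) b
/-- a digit which depends on the degree -/
def fs (k e : Nat) (b : Bool) : Nat :=
  Bool.rec (motive := fun _ => Nat) (nat_lit 0) (Nat.shiftRight k (Nat.mul (nat_lit 2) e)) b

theorem cd_of {c k d : Nat} (h : Nat.beq c (SmD (fd k d) (nat_lit 301)) = true) :
    c = Sm 301 (fun i => fd k d (xd i) (vb i)) :=
  (Nat.eq_of_beq_eq_true h).trans (SmD_eq _ _)
theorem fA_eq : fA = Sm 301 (fun i => fs (nat_lit 9444732965739307204608) (xd i) (vb i)) :=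
  (Nat.eq_of_beq_eq_true (show Nat.beq fA (SmD (fs (nat_lit 9444732965739307204608))
    (nat_lit 301)) = true by decide +kernel)).trans (SmD_eq _ _)

theorem fd_f (k d e : ℕ) : fd k d e false = 0 := rfl
theorem fs_f (k e : ℕ) : fs k e false = 0 := rfl
theorem fd_t (k d e : ℕ) : fd k d e true = if e = d then k else 0 := by
  unfold fd
  by_cases h : e = d
  · rw [if_pos h, h, show Nat.beq d d = true from by rw [Nat.beq_eq]]
  · rw [if_neg h, show Nat.beq e d = false from by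
      cases hb : Nat.beq e d with
      | false => rfl
      | true => exact absurd (Nat.eq_of_beq_eq_true hb) h]
theorem fs_t {e : ℕ} (he : e ≤ 6) : fs (nat_lit 9444732965739307204608) e true =
    2 ^ (73 - 2 * e) + 2 ^ (24 - 2 * e) := by
  have e1 : fs (nat_lit 9444732965739307204608) e true = 9444732965739307204608 / 2 ^ (2 * e) :=
    Nat.shiftRight_eq_div_pow _ _
  rw [e1]
  interval_cases e <;> norm_num

/-! ### masks -/

theorem mk_land (x s : ℕ) : x &&& (2 ^ s * (2 ^ 49 - 1)) = 2 ^ s * (x / 2 ^ s % 2 ^ 49) := by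
  have h := land_split (k := s) (a := x % 2 ^ s) (b := x / 2 ^ s) (a' := 0) (b' := 2 ^ 49 - 1)
    (Nat.mod_lt _ (by positivity)) (by positivity)
  rw [Nat.mod_add_div, zero_add, Nat.and_zero, zero_add, Nat.and_two_pow_sub_one_eq_mod] at h
  exact h

theorem sh_ok {x : ℕ → ℕ} {T s d K M : ℕ} (hd : ∀ i < 301, x i < 2 ^ 160)
    (eM : M = Sm 301 (fun i => fd K d (xd i) (vb i))) (hK : K = 2 ^ s * (2 ^ 49 - 1))
    (hs : s ≤ 100) : Nat.shiftRight (Nat.land (Sm 301 x + 2 ^ (160 * 301) * T) M) s =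
      Sm 301 (fun i => if vb i = true ∧ xd i = d then x i / 2 ^ s % 2 ^ 49 else 0) := by
  have hK2 : K < 2 ^ 160 := by
    have h1 : 2 ^ s ≤ 2 ^ 100 := Nat.pow_le_pow_right (by norm_num) hs
    have h2 : 2 ^ s * (2 ^ 49 - 1) ≤ 2 ^ 100 * (2 ^ 49 - 1) := Nat.mul_le_mul_right _ h1
    have h3 : 2 ^ 100 * (2 ^ 49 - 1) < 2 ^ 160 := by norm_num
    omega
  have e1 : Nat.land (Sm 301 x + 2 ^ (160 * 301) * T) M =
      Sm 301 (fun i => x i &&& fd K d (xd i) (vb i)) := by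
    rw [eM]
    refine Sm_land hd (fun i _ => ?_) T
    show fd K d (xd i) (vb i) < 2 ^ 160
    cases vb i
    · rw [fd_f]; positivity
    · rw [fd_t]
      split_ifs
      · exact hK2
      · positivity
  have e2 : Sm 301 (fun i => x i &&& fd K d (xd i) (vb i)) = Sm 301 (fun i =>
      (if vb i = true ∧ xd i = d then x i / 2 ^ s % 2 ^ 49 else 0) * 2 ^ s) := by
    refine Sm_congr fun i _ => ?_
    cases hv : vb i
    · rw [fd_f, Nat.and_zero, if_neg (fun h => absurd h.1 (by decide)), zero_mul]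
    · rw [fd_t]
      by_cases h : xd i = d
      · rw [if_pos h, if_pos ⟨rfl, h⟩, hK, mk_land, mul_comm]
      · rw [if_neg h, if_neg (fun h' => h h'.2), Nat.and_zero, zero_mul]
  rw [e1, e2, Sm_mul]
  have e3 : Nat.shiftRight (Sm 301 (fun i => if vb i = true ∧ xd i = d then
      x i / 2 ^ s % 2 ^ 49 else 0) * 2 ^ s) s = Sm 301 (fun i => if vb i = true ∧ xd i = d then
      x i / 2 ^ s % 2 ^ 49 else 0) * 2 ^ s / 2 ^ s := Nat.shiftRight_eq_div_pow _ _
  rw [e3, Nat.mul_div_cancel _ (by positivity)]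

/-! ### a digit -/

/-- the rounded coefficient -/
def rq (c : ℤ) (e : ℕ) : ℤ := (c + 2 ^ (24 - 2 * e)) / 2 ^ (25 - 2 * e)

theorem dig1 {c : ℤ} {e : ℕ} (he : e ≤ 6) (hc : |c| ≤ 2 ^ (70 - 2 * e)) :
    ((((c + ((2 ^ (73 - 2 * e) + 2 ^ (24 - 2 * e) : ℕ) : ℤ)).toNat / 2 ^ (25 - 2 * e) % 2 ^ 49 : ℕ) :
      ℤ) = rq c e + 2 ^ 48) ∧ (c + ((2 ^ (73 - 2 * e) + 2 ^ (24 - 2 * e) : ℕ) : ℤ)).toNat < 2 ^ 160 ∧
      0 ≤ c + ((2 ^ (73 - 2 * e) + 2 ^ (24 - 2 * e) : ℕ) : ℤ) ∧ |rq c e| ≤ 2 ^ 45 := by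
  unfold rq
  rw [abs_le] at hc ⊢
  interval_cases e <;> norm_num at hc ⊢ <;> omega

theorem rq_err (c : ℤ) {e : ℕ} (he : e ≤ 6) :
    |((rq c e : ℤ) : ℝ) - (c : ℝ) / 2 ^ (25 - 2 * e)| ≤ 1 / 2 := by
  obtain ⟨s, hs⟩ : ∃ s, 25 - 2 * e = s + 1 := ⟨24 - 2 * e, by omega⟩
  have hs' : 24 - 2 * e = s := by omega
  unfold rq
  rw [hs, hs']
  have h1 := Int.mul_ediv_self_le (x := c + 2 ^ s) (k := 2 ^ (s + 1)) (by positivity)
  have h2 := Int.lt_mul_ediv_self_add (x := c + 2 ^ s) (k := 2 ^ (s + 1)) (by positivity)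
  set k : ℤ := (c + 2 ^ s) / 2 ^ (s + 1) with hk
  have h1' : (2 : ℝ) ^ (s + 1) * (k : ℝ) ≤ (c : ℝ) + 2 ^ s := by exact_mod_cast h1
  have h2' : (c : ℝ) + 2 ^ s < 2 ^ (s + 1) * (k : ℝ) + 2 ^ (s + 1) := by exact_mod_cast h2
  have p : (0 : ℝ) < 2 ^ s := by positivity
  have e1 : (2 : ℝ) ^ (s + 1) = 2 * 2 ^ s := by rw [pow_succ]; ring
  rw [e1] at h1' h2' ⊢
  have e2 : (k : ℝ) - c / (2 * 2 ^ s) = (2 * 2 ^ s * k - c) / (2 * 2 ^ s) := by
    field_simp
  rw [e2, abs_div, abs_of_pos (by positivity : (0 : ℝ) < 2 * 2 ^ s), div_le_iff₀ (by positivity),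
    abs_le]
  constructor <;> linarith

theorem cx_err {x y : ℝ} (hx : |x| ≤ 1 / 2) (hy : |y| ≤ 1 / 2) :
    ‖(x : ℂ) + (y : ℂ) * Complex.I‖ ≤ 3 / 4 := by
  have h1 : ‖(x : ℂ) + (y : ℂ) * Complex.I‖ ^ 2 = x ^ 2 + y ^ 2 := by
    rw [Complex.sq_norm, Complex.normSq_apply]
    simp
    ring
  have h2 : x ^ 2 ≤ 1 / 4 := by
    have := sq_le_sq' (by linarith [(abs_le.1 hx).1]) (abs_le.1 hx).2
    nlinarith
  have h3 : y ^ 2 ≤ 1 / 4 := by
    have := sq_le_sq' (by linarith [(abs_le.1 hy).1]) (abs_le.1 hy).2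
    nlinarith
  have h4 : ‖(x : ℂ) + (y : ℂ) * Complex.I‖ ^ 2 ≤ (3 / 4) ^ 2 := by
    rw [h1]
    norm_num
    linarith
  exact (abs_le_of_sq_le_sq' h4 (by norm_num)).2

/-! ### the digits of the converted number -/

/-- the integer coefficients of the converted model -/
def rp (c : ℕ → ℤ) (i : ℕ) : ℤ := if vb i = true then rq (c i) (xd i) else 0

theorem rp_t {c : ℕ → ℤ} {i : ℕ} (h : vb i = true) : rp c i = rq (c i) (xd i) := if_pos h
theorem rp_sp (c : ℕ → ℤ) : Sp (rp c) := fun i hi => if_neg (by rw [hi]; decide)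

theorem xd_le {i : ℕ} (h : vb i = true) : xd i ≤ 6 := by
  have h1 := ((vb_iff i).1 h).1
  unfold xd
  omega

theorem rp_bd {c : ℕ → ℤ} (hc : ∀ i, vb i = true → |c i| ≤ 2 ^ (70 - 2 * xd i)) (i : ℕ) :
    |rp c i| ≤ 2 ^ 45 := by
  cases hv : vb i with
  | false =>
    rw [rp_sp c i hv]
    norm_num
  | true =>
    rw [rp_t hv]
    exact (dig1 (xd_le hv) (hc i hv)).2.2.2

theorem loT_ok {N : ℕ} {c : ℕ → ℤ} (h : Rp N c)
    (hc : ∀ i, vb i = true → |c i| ≤ 2 ^ (70 - 2 * xd i)) :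
    ((loT N : ℕ) : ℤ) = Sz 301 (fun i => rp c i + ov i) := by
  set o : ℕ → ℕ := fun i => fs (nat_lit 9444732965739307204608) (xd i) (vb i) with ho
  set x : ℕ → ℕ := fun i => (c i + (o i : ℤ)).toNat with hx
  have ot : ∀ {i}, vb i = true → o i = 2 ^ (73 - 2 * xd i) + 2 ^ (24 - 2 * xd i) := by
    intro i hv
    show fs _ (xd i) (vb i) = _
    rw [hv, fs_t (xd_le hv)]
  have xf : ∀ {i}, vb i = false → x i = 0 := by
    intro i hv
    show (c i + (fs _ (xd i) (vb i) : ℤ)).toNat = 0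
    rw [hv, fs_f, h.sp i hv]
    rfl
  have xt : ∀ {i}, vb i = true → ((x i / 2 ^ (25 - 2 * xd i) % 2 ^ 49 : ℕ) : ℤ) =
      rq (c i) (xd i) + 2 ^ 48 ∧ x i < 2 ^ 160 ∧ c i + (o i : ℤ) = ((x i : ℕ) : ℤ) := by
    intro i hv
    obtain ⟨h1, h2, h3, -⟩ := dig1 (xd_le hv) (hc i hv)
    rw [← ot hv] at h1 h2 h3
    exact ⟨h1, h2, (Int.toNat_of_nonneg h3).symm⟩
  have hd : ∀ i < 301, x i < 2 ^ 160 := by
    intro i _
    cases hv : vb i with
    | false =>
      rw [xf hv]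
      positivity
    | true => exact (xt hv).2.1
  have hcx : ∀ i < 301, c i + (o i : ℤ) = ((x i : ℕ) : ℤ) := by
    intro i _
    cases hv : vb i with
    | false =>
      have : o i = 0 := by
        show fs _ (xd i) (vb i) = 0
        rw [hv, fs_f]
      rw [xf hv, this, h.sp i hv]
      rfl
    | true => exact (xt hv).2.2
  obtain ⟨T, hT⟩ := Sm_of (n := 301) (N := N) (c := c) (o := o) h.md hd hcx
  have e0 : Nat.add N fA = Sm 301 x + 2 ^ (160 * 301) * T := by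
    rw [← hT, fA_eq]
    rfl
  set y : ℕ → ℕ → ℕ := fun d i => if vb i = true ∧ xd i = d then
    x i / 2 ^ (25 - 2 * d) % 2 ^ 49 else 0 with hy
  have s0 : Nat.shiftRight (Nat.land (Sm 301 x + 2 ^ (160 * 301) * T) tM0) (nat_lit 25) =
      Sm 301 (y 0) := sh_ok (K := (nat_lit 18889465931478547300352)) hd (cd_of (by decide +kernel))
        (by norm_num) (by norm_num)
  have s1 : Nat.shiftRight (Nat.land (Sm 301 x + 2 ^ (160 * 301) * T) tM1) (nat_lit 23) =
      Sm 301 (y 1) := sh_ok (K := (nat_lit 4722366482869636825088)) hd (cd_of (by decide +kernel))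
        (by norm_num) (by norm_num)
  have s2 : Nat.shiftRight (Nat.land (Sm 301 x + 2 ^ (160 * 301) * T) tM2) (nat_lit 21) =
      Sm 301 (y 2) := sh_ok (K := (nat_lit 1180591620717409206272)) hd (cd_of (by decide +kernel))
        (by norm_num) (by norm_num)
  have s3 : Nat.shiftRight (Nat.land (Sm 301 x + 2 ^ (160 * 301) * T) tM3) (nat_lit 19) =
      Sm 301 (y 3) := sh_ok (K := (nat_lit 295147905179352301568)) hd (cd_of (by decide +kernel))
        (by norm_num) (by norm_num)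
  have s4 : Nat.shiftRight (Nat.land (Sm 301 x + 2 ^ (160 * 301) * T) tM4) (nat_lit 17) =
      Sm 301 (y 4) := sh_ok (K := (nat_lit 73786976294838075392)) hd (cd_of (by decide +kernel))
        (by norm_num) (by norm_num)
  have s5 : Nat.shiftRight (Nat.land (Sm 301 x + 2 ^ (160 * 301) * T) tM5) (nat_lit 15) =
      Sm 301 (y 5) := sh_ok (K := (nat_lit 18446744073709518848)) hd (cd_of (by decide +kernel))
        (by norm_num) (by norm_num)
  have s6 : Nat.shiftRight (Nat.land (Sm 301 x + 2 ^ (160 * 301) * T) tM6) (nat_lit 13) =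
      Sm 301 (y 6) := sh_ok (K := (nat_lit 4611686018427379712)) hd (cd_of (by decide +kernel))
        (by norm_num) (by norm_num)
  have e1 : loT N = (Sm 301 (y 0) + Sm 301 (y 1)) + ((Sm 301 (y 2) + Sm 301 (y 3)) +
      (Sm 301 (y 4) + (Sm 301 (y 5) + Sm 301 (y 6)))) := by
    rw [← s0, ← s1, ← s2, ← s3, ← s4, ← s5, ← s6, ← e0]
    rfl
  have e2 : loT N = Sm 301 (fun i => (y 0 i + y 1 i) + ((y 2 i + y 3 i) +
      (y 4 i + (y 5 i + y 6 i)))) := by
    rw [e1, Sm_add, Sm_add, Sm_add, Sm_add, Sm_add, Sm_add]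
  rw [e2, Sz_cast]
  refine Sz_congr fun i _ => ?_
  cases hv : vb i with
  | false =>
    have hy0 : ∀ d, y d i = 0 := fun d => if_neg (fun h => by rw [hv] at h; exact absurd h.1 (by decide))
    rw [hy0, hy0, hy0, hy0, hy0, hy0, hy0, rp_sp c i hv]
    unfold ov
    rw [hv]
    rfl
  | true =>
    have h6 := xd_le hv
    have hyt : y (xd i) i = x i / 2 ^ (25 - 2 * xd i) % 2 ^ 49 := if_pos ⟨hv, rfl⟩
    have hyn : ∀ d, xd i ≠ d → y d i = 0 := fun d h => if_neg (fun h' => h h'.2)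
    have hov : ov i = 2 ^ 48 := by
      unfold ov
      rw [if_pos hv]
    rw [rp_t hv, hov, ← (xt hv).1, ← hyt]
    have h7 : xd i = 0 ∨ xd i = 1 ∨ xd i = 2 ∨ xd i = 3 ∨ xd i = 4 ∨ xd i = 5 ∨ xd i = 6 := by
      omega
    rcases h7 with h | h | h | h | h | h | h <;> rw [h] <;>
      simp only [hyn 0, hyn 1, hyn 2, hyn 3, hyn 4, hyn 5, hyn 6, h, ne_eq, OfNat.ofNat_ne_zero,
        OfNat.zero_ne_ofNat, OfNat.one_ne_ofNat, OfNat.ofNat_ne_one, one_ne_zero, zero_ne_one,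
        not_false_eq_true, Nat.reduceEqDiff, zero_add, add_zero]

end Pool.Agent.Helper55.FU
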